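import Pool.Agent.L0h68.CK.LawA

/-!
# Module law of project CK, part B: summation over the spheres
-/

set_option autoImplicit false
set_option linter.unusedSectionVars false

namespace Pool.Agent.L0h68.CK

open MvPolynomial MeasureTheory Filter Topology
open Pool.Agent.W427.SMC (msZ bsZ mu isom_surj)
open Pool.Agent.L0h21.SN (isom_mp)

attribute [local instance] msZ bsZ

variable {p : ℕ} [Fact p.Prime] {V : Type} [Fintype V]

/-! ### polynomials without terms of small degree -/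

theorem mon_le (d : V →₀ ℕ) (a : ℤ_[p]) (x : V → ℤ_[p]) {r : ℝ} (hr0 : 0 ≤ r)
    (hx : ∀ i, ‖x i‖ ≤ r) : ‖eval x (monomial d a)‖ ≤ r ^ d.degree := by
  rw [eval_monomial, norm_mul]
  refine (mul_le_of_le_one_left (norm_nonneg _) (PadicInt.norm_le_one a)).trans ?_
  rw [Finsupp.prod, norm_prod, Finsupp.degree_apply, ← Finset.prod_pow_eq_pow_sum]
  refine Finset.prod_le_prod (fun i _ => norm_nonneg _) fun i _ => ?_
  rw [norm_pow]
  exact pow_le_pow_left₀ (norm_nonneg _) (hx i) _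

theorem ord_le (q : MvPolynomial V ℤ_[p]) (k : ℕ) (h : ∀ d : V →₀ ℕ, d.degree < k → coeff d q = 0)
    (x : V → ℤ_[p]) {r : ℝ} (hr0 : 0 ≤ r) (hr1 : r ≤ 1) (hx : ∀ i, ‖x i‖ ≤ r) :
    ‖eval x q‖ ≤ r ^ k ∧ ∀ i, ‖eval x (pderiv i q)‖ ≤ r ^ (k - 1) := by
  classical
  have hs : ∀ d ∈ q.support, k ≤ d.degree := by
    intro d hd
    by_contra hc
    exact (mem_support_iff.1 hd) (h d (not_le.1 hc))
  constructor
  · conv_lhs => rw [q.as_sum, map_sum]
    refine norm_sum_le' _ _ (by positivity) fun d hd => ?_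
    exact (mon_le d _ x hr0 hx).trans (pow_le_pow_of_le_one hr0 hr1 (hs d hd))
  · intro i
    conv_lhs => rw [q.as_sum, map_sum, map_sum]
    refine norm_sum_le' _ _ (by positivity) fun d hd => ?_
    rw [pderiv_monomial]
    refine (mon_le _ _ x hr0 hx).trans (pow_le_pow_of_le_one hr0 hr1 ?_)
    have h1 := hs d hd
    have h2 : d.degree ≤ (d - Finsupp.single i 1).degree + 1 := by
      have h3 : d ≤ (d - Finsupp.single i 1) + Finsupp.single i 1 := le_tsub_add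
      have h4 := Finsupp.degree_mono h3
      rw [map_add, Finsupp.degree_single] at h4
      exact h4
    omega

/-! ### averages over translations -/

theorem tr_int (Ψ : (V → ℤ_[p]) → ℂ) (z : V → ℤ_[p]) :
    ∫ x, Ψ (x + z) ∂(Measure.pi fun _ : V => mu p) = ∫ x, Ψ x ∂(Measure.pi fun _ : V => mu p) :=
  integral_add_right_eq_self Ψ z

theorem avg (A : Set (V → ℤ_[p])) (hA : MeasurableSet A) (e : ℕ)
    (hinv : ∀ x y : V → ℤ_[p], x + (fun i => (p : ℤ_[p]) ^ e * y i) ∈ A ↔ x ∈ A)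
    (Ψ : (V → ℤ_[p]) → ℂ) (hΨ : Measurable Ψ) (hB : ∃ B : ℝ, ∀ x, ‖Ψ x‖ ≤ B) :
    ∫ x in A, ∫ y, Ψ (x + fun i => (p : ℤ_[p]) ^ e * y i) ∂(Measure.pi fun _ : V => mu p)
      ∂(Measure.pi fun _ : V => mu p) = ∫ x in A, Ψ x ∂(Measure.pi fun _ : V => mu p) := by
  obtain ⟨B, hB⟩ := hB
  have hc : Continuous fun z : (V → ℤ_[p]) × (V → ℤ_[p]) =>
      z.1 + fun i => (p : ℤ_[p]) ^ e * z.2 i := by fun_prop
  have hint : Integrable (fun z : (V → ℤ_[p]) × (V → ℤ_[p]) =>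
      Ψ (z.1 + fun i => (p : ℤ_[p]) ^ e * z.2 i))
      (((Measure.pi fun _ : V => mu p).restrict A).prod (Measure.pi fun _ : V => mu p)) :=
    Integrable.of_bound (hΨ.comp hc.measurable).aestronglyMeasurable B
      (Eventually.of_forall fun z => hB _)
  rw [integral_integral_swap (f := fun x y : V → ℤ_[p] => Ψ (x + fun i => (p : ℤ_[p]) ^ e * y i))
    hint]
  have h1 : ∀ y : V → ℤ_[p], ∫ x in A, Ψ (x + fun i => (p : ℤ_[p]) ^ e * y i)
      ∂(Measure.pi fun _ : V => mu p) = ∫ x in A, Ψ x ∂(Measure.pi fun _ : V => mu p) := by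
    intro y
    rw [← integral_indicator hA, ← integral_indicator hA,
      ← tr_int (A.indicator Ψ) (fun i => (p : ℤ_[p]) ^ e * y i)]
    refine integral_congr_ae (Eventually.of_forall fun x => ?_)
    show A.indicator (fun x => Ψ (x + fun i => (p : ℤ_[p]) ^ e * y i)) x =
      A.indicator Ψ (x + fun i => (p : ℤ_[p]) ^ e * y i)
    by_cases hx : x ∈ A
    · rw [Set.indicator_of_mem hx, Set.indicator_of_mem ((hinv x y).2 hx)]
    · rw [Set.indicator_of_notMem hx, Set.indicator_of_notMem fun h => hx ((hinv x y).1 h)]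
  simp only [h1]
  rw [integral_const, probReal_univ, one_smul]

/-! ### no atoms -/

theorem noAtoms : NullSingletonClass (mu p) := by
  have h : (𝓝[≠] (0 : ℤ_[p])).NeBot := by
    rw [← mem_closure_iff_nhdsWithin_neBot]
    have h1 : Tendsto (fun n : ℕ => (p : ℤ_[p]) ^ n) atTop (𝓝 0) := by
      apply tendsto_pow_atTop_nhds_zero_of_norm_lt_one
      rw [PadicInt.norm_p]
      exact ilt
    refine mem_closure_of_tendsto h1 (Eventually.of_forall fun n => ?_)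
    exact pow_ne_zero _ (by exact_mod_cast (Fact.out : p.Prime).ne_zero)
  infer_instance

/-- the sphere of radius `p ^ (-j)` -/
def sph (p : ℕ) [Fact p.Prime] (V : Type) [Fintype V] (j : ℕ) : Set (V → ℤ_[p]) :=
  {x | ‖x‖ = ((p : ℝ)⁻¹) ^ j}

theorem sph_meas (j : ℕ) : MeasurableSet (sph p V j) :=
  (isClosed_eq continuous_norm continuous_const).measurableSet

theorem norm_add_small {x z : V → ℤ_[p]} (h : ‖z‖ < ‖x‖) : ‖x + z‖ = ‖x‖ := by
  rw [IsUltrametricDist.norm_add_eq_max_of_norm_ne_norm h.ne', max_eq_left h.le]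

theorem norm_pe (e : ℕ) (y : V → ℤ_[p]) :
    ‖(fun i => (p : ℤ_[p]) ^ e * y i : V → ℤ_[p])‖ ≤ ((p : ℝ)⁻¹) ^ e := by
  have := ipos (p := p)
  rw [pi_norm_le_iff_of_nonneg (by positivity)]
  intro i
  rw [norm_mul, norm_pw]
  exact mul_le_of_le_one_right (by positivity) (PadicInt.norm_le_one _)

theorem sph_inv {j e : ℕ} (h : j < e) (x y : V → ℤ_[p]) :
    x + (fun i => (p : ℤ_[p]) ^ e * y i) ∈ sph p V j ↔ x ∈ sph p V j := by
  have h0 := ipos (p := p)
  have h1 : ((p : ℝ)⁻¹) ^ e < ((p : ℝ)⁻¹) ^ j := pow_lt_pow_right_of_lt_one₀ h0 ilt h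
  have h2 := (norm_pe e y).trans_lt h1
  constructor
  · intro hx
    have h3 : ‖x + (fun i => (p : ℤ_[p]) ^ e * y i) + -(fun i => (p : ℤ_[p]) ^ e * y i)‖ =
        ‖x + (fun i => (p : ℤ_[p]) ^ e * y i)‖ := by
      apply norm_add_small
      rw [norm_neg, show ‖x + (fun i => (p : ℤ_[p]) ^ e * y i)‖ = ((p : ℝ)⁻¹) ^ j from hx]
      exact h2
    rw [add_neg_cancel_right] at h3
    show ‖x‖ = _
    rw [h3]
    exact hx
  · intro hx
    show ‖x + (fun i => (p : ℤ_[p]) ^ e * y i)‖ = _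
    rw [norm_add_small (by rw [show ‖x‖ = ((p : ℝ)⁻¹) ^ j from hx]; exact h2)]
    exact hx

theorem sph_disj {i j : ℕ} (h : i ≠ j) : Disjoint (sph p V i) (sph p V j) := by
  rw [Set.disjoint_left]
  intro x hx hx'
  have h1 : ((p : ℝ)⁻¹) ^ i = ((p : ℝ)⁻¹) ^ j := by
    rw [← show ‖x‖ = ((p : ℝ)⁻¹) ^ i from hx]
    exact hx'
  exact h (pow_right_injective₀ ipos (ilt (p := p)).ne h1)

theorem norm_eq_pow {x : ℤ_[p]} (h : x ≠ 0) : ‖x‖ = ((p : ℝ)⁻¹) ^ x.valuation := by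
  rw [PadicInt.norm_eq_zpow_neg_valuation h, zpow_neg, zpow_natCast, inv_pow]

theorem exists_max (x : V → ℤ_[p]) (h : x ≠ 0) : ∃ i, ‖x i‖ = ‖x‖ := by
  obtain ⟨i, hi⟩ := Function.ne_iff.1 h
  obtain ⟨j, -, hj⟩ := Finset.exists_max_image Finset.univ (fun i => ‖x i‖)
    ⟨i, Finset.mem_univ i⟩
  refine ⟨j, le_antisymm (norm_le_pi_norm x j) ?_⟩
  rw [pi_norm_le_iff_of_nonneg (norm_nonneg _)]
  exact fun i => hj i (Finset.mem_univ i)

theorem sph_cover {x : V → ℤ_[p]} (h : x ≠ 0) : ∃ j, x ∈ sph p V j := by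
  obtain ⟨i, hi⟩ := exists_max x h
  have h1 : x i ≠ 0 := by
    intro h0
    rw [h0, norm_zero, eq_comm, norm_eq_zero] at hi
    exact h hi
  exact ⟨(x i).valuation, by show ‖x‖ = _; rw [← hi, norm_eq_pow h1]⟩

/-- equality of integrals from equality on the spheres -/
theorem int_zero [Nonempty V] (Φ : (V → ℤ_[p]) → ℂ) (hΦ : Measurable Φ)
    (hB : ∃ B : ℝ, ∀ x, ‖Φ x‖ ≤ B)
    (h : ∀ j, ∫ x in sph p V j, Φ x ∂(Measure.pi fun _ : V => mu p) = 0) :
    ∫ x, Φ x ∂(Measure.pi fun _ : V => mu p) = 0 := by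
  obtain ⟨B, hB⟩ := hB
  have := noAtoms (p := p)
  have hna : NullSingletonClass (Measure.pi fun _ : V => mu p) :=
    Measure.pi_nullSingletonClass (Classical.arbitrary V)
  have hint : Integrable Φ (Measure.pi fun _ : V => mu p) :=
    Integrable.of_bound hΦ.aestronglyMeasurable B (Eventually.of_forall hB)
  have h1 := integral_iUnion (μ := Measure.pi fun _ : V => mu p) (f := Φ)
    (fun j => sph_meas (p := p) (V := V) j) (fun i j hij => sph_disj hij) hint.integrableOn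
  have h2 : (⋃ j, sph p V j) = {0}ᶜ := by
    ext x
    simp only [Set.mem_iUnion, Set.mem_compl_iff, Set.mem_singleton_iff]
    constructor
    · rintro ⟨j, hj⟩ rfl
      have : ‖(0 : V → ℤ_[p])‖ = ((p : ℝ)⁻¹) ^ j := hj
      rw [norm_zero] at this
      exact absurd this (pow_pos ipos j).ne
    · exact sph_cover
  simp only [h, tsum_zero] at h1
  rw [h2] at h1
  have h3 := integral_add_compl (μ := Measure.pi fun _ : V => mu p) (s := {(0 : V → ℤ_[p])})
    (measurableSet_singleton _) hint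
  rw [h1, add_zero] at h3
  rw [← h3, setIntegral_measure_zero _ (measure_singleton _)]

/-! ### the theorem -/

/-- `F` and `G` have the same distribution near an isolated critical point -/
theorem law_main (F G : MvPolynomial V ℤ_[p]) (c k0 M k : ℕ)
    (hF : ∀ x : V → ℤ_[p], (∀ i, ‖x i‖ ≤ ((p : ℝ)⁻¹) ^ k0) → ∀ v, ∃ i,
      ((p : ℝ)⁻¹) ^ c * ‖x v‖ ^ M ≤ ‖eval x (pderiv i F)‖)
    (hR : ∀ d : V →₀ ℕ, d.degree < k → coeff d (F - G) = 0) (hk : 2 * M + 2 ≤ k)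
    (l : ℕ) (hl : k0 + (2 * c + 1) ≤ l) (H : ℤ_[p] → ℂ) (hH : Measurable H)
    (hHB : ∃ B : ℝ, ∀ z, ‖H z‖ ≤ B) :
    ∫ x, H (eval (fun i => (p : ℤ_[p]) ^ l * x i) F) ∂(Measure.pi fun _ : V => mu p) =
      ∫ x, H (eval (fun i => (p : ℤ_[p]) ^ l * x i) G) ∂(Measure.pi fun _ : V => mu p) := by
  classical
  obtain ⟨B, hHB⟩ := hHB
  have hp0 := ipos (p := p)
  have hp1 := ilt (p := p)
  rcases isEmpty_or_nonempty V with hV | hV
  · have h1 : F = G := by
      rw [← sub_eq_zero]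
      ext d
      rw [coeff_zero]
      apply hR
      rw [Subsingleton.elim d 0, map_zero]
      omega
    rw [h1]
  have hm : ∀ P : MvPolynomial V ℤ_[p], Measurable fun x : V → ℤ_[p] =>
      H (eval (fun i => (p : ℤ_[p]) ^ l * x i) P) := by
    intro P
    have hc : Continuous fun x : V → ℤ_[p] => eval (fun i => (p : ℤ_[p]) ^ l * x i) P :=
      (MvPolynomial.continuous_eval P).comp (by fun_prop)
    exact hH.comp hc.measurable
  have hi : ∀ P : MvPolynomial V ℤ_[p], Integrable (fun x : V → ℤ_[p] =>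
      H (eval (fun i => (p : ℤ_[p]) ^ l * x i) P)) (Measure.pi fun _ : V => mu p) := fun P =>
    Integrable.of_bound (hm P).aestronglyMeasurable B (Eventually.of_forall fun _ => hHB _)
  rw [← sub_eq_zero, ← integral_sub (hi F) (hi G)]
  refine int_zero _ ((hm F).sub (hm G)) ⟨B + B, fun x => (norm_sub_le _ _).trans
    (add_le_add (hHB _) (hHB _))⟩ fun j => ?_
  rw [integral_sub (hi F).integrableOn (hi G).integrableOn, sub_eq_zero]
  -- the disc radius on the sphere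
  set ρ : ℕ := l + j with hρ
  set s : ℕ := c + 1 + ρ * (M + 1) with hs
  have hρs : c + 1 + ρ ≤ s := by
    rw [hs, Nat.mul_add, Nat.mul_one]
    omega
  obtain ⟨e, he⟩ : ∃ e, s = l + e := ⟨s - l, by omega⟩
  have hje : j < e := by omega
  rw [← avg (sph p V j) (sph_meas j) e (sph_inv hje) _ (hm F) ⟨B, fun _ => hHB _⟩,
    ← avg (sph p V j) (sph_meas j) e (sph_inv hje) _ (hm G) ⟨B, fun _ => hHB _⟩]
  refine setIntegral_congr_fun (sph_meas j) fun x hx => ?_
  -- at the point `x`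
  set y0 : V → ℤ_[p] := fun i => (p : ℤ_[p]) ^ l * x i with hy0
  have hxn : ‖x‖ = ((p : ℝ)⁻¹) ^ j := hx
  have hx0 : x ≠ 0 := by
    rintro rfl
    rw [norm_zero] at hxn
    exact (pow_pos hp0 j).ne hxn
  have hyn : ∀ i, ‖y0 i‖ ≤ ((p : ℝ)⁻¹) ^ ρ := by
    intro i
    rw [hy0, norm_mul, norm_pw, hρ, pow_add]
    exact mul_le_mul_of_nonneg_left ((norm_le_pi_norm x i).trans hxn.le) (by positivity)
  obtain ⟨v, hv⟩ := exists_max x hx0
  have hyv : ‖y0 v‖ = ((p : ℝ)⁻¹) ^ ρ := by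
    rw [hy0, norm_mul, norm_pw, hv, hxn, hρ, pow_add]
  have hρ1 : ((p : ℝ)⁻¹) ^ ρ ≤ 1 := pow_le_one₀ hp0.le hp1.le
  obtain ⟨i1, hi1⟩ := hF y0 (fun i => (hyn i).trans (pow_le_pow_of_le_one hp0.le hp1.le
    (by omega))) v
  obtain ⟨i0, -, hi0⟩ := Finset.exists_max_image Finset.univ
    (fun i => ‖eval y0 (pderiv i F)‖) ⟨i1, Finset.mem_univ i1⟩
  have h1 : ((p : ℝ)⁻¹) ^ (c + ρ * M) ≤ ‖eval y0 (pderiv i0 F)‖ := by
    refine le_trans (le_of_eq ?_) (hi1.trans (hi0 i1 (Finset.mem_univ _)))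
    rw [hyv, ← pow_mul, pow_add]
  have h2 : eval y0 (pderiv i0 F) ≠ 0 := by
    intro h0
    rw [h0, norm_zero] at h1
    exact absurd h1 (not_le.2 (pow_pos hp0 _))
  set g : ℕ := (eval y0 (pderiv i0 F)).valuation with hg
  have h3 : ‖eval y0 (pderiv i0 F)‖ = ((p : ℝ)⁻¹) ^ g := norm_eq_pow h2
  have hgle : g ≤ c + ρ * M := by
    rw [h3] at h1
    exact (pow_le_pow_iff_right_of_lt_one₀ hp0 hp1).1 h1
  have hmul : ρ * (M + 1) = ρ * M + ρ := by ring
  have hgs : g < s := by omega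
  obtain ⟨h4, h5⟩ := ord_le (F - G) k hR y0 (by positivity) hρ1 hyn
  rw [← pow_mul, map_sub] at h4
  have hk1 : s + g ≤ ρ * k := by
    have h6 : ρ * (2 * M + 2) ≤ ρ * k := Nat.mul_le_mul_left _ hk
    have h7 : ρ * (2 * M + 2) = 2 * (ρ * M) + 2 * ρ := by ring
    omega
  have hk2 : g < ρ * (k - 1) := by
    have h6 : ρ * (2 * M + 1) ≤ ρ * (k - 1) := Nat.mul_le_mul_left _ (by omega)
    have h7 : ρ * (2 * M + 1) = 2 * (ρ * M) + ρ := by ring
    omega
  have h6 : ∀ i, ‖eval y0 (pderiv i F) - eval y0 (pderiv i G)‖ < ((p : ℝ)⁻¹) ^ g := by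
    intro i
    have h7 := h5 i
    rw [map_sub, map_sub, ← pow_mul] at h7
    exact h7.trans_lt (pow_lt_pow_right_of_lt_one₀ hp0 hp1 hk2)
  have hF1 : ∀ i, ‖eval y0 (pderiv i F)‖ ≤ ((p : ℝ)⁻¹) ^ g := fun i =>
    (hi0 i (Finset.mem_univ i)).trans h3.le
  have hG1 : ∀ i, ‖eval y0 (pderiv i G)‖ ≤ ((p : ℝ)⁻¹) ^ g := by
    intro i
    have h7 : eval y0 (pderiv i G) = eval y0 (pderiv i F) +
        -(eval y0 (pderiv i F) - eval y0 (pderiv i G)) := by ring
    rw [h7]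
    exact norm_add_le' (hF1 i) (by rw [norm_neg]; exact (h6 i).le)
  have hG2 : ‖eval y0 (pderiv i0 G)‖ = ((p : ℝ)⁻¹) ^ g := by
    have h7 : eval y0 (pderiv i0 G) = eval y0 (pderiv i0 F) +
        -(eval y0 (pderiv i0 F) - eval y0 (pderiv i0 G)) := by ring
    rw [h7, norm_add_eq (by rw [norm_neg, h3]; exact h6 i0), h3]
  have hdF := law_disc F y0 s g hgs i0 (eval y0 G)
    (h4.trans (pow_le_pow_of_le_one hp0.le hp1.le hk1)) hF1 h3 H hH
  have hdG := law_disc G y0 s g hgs i0 (eval y0 G)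
    (by rw [sub_self, norm_zero]; positivity) hG1 hG2 H hH
  have h8 : ∀ y : V → ℤ_[p], (fun i => (p : ℤ_[p]) ^ l *
      (x + fun i => (p : ℤ_[p]) ^ e * y i) i) = fun i => y0 i + (p : ℤ_[p]) ^ s * y i := by
    intro y
    funext i
    rw [hy0, he, pow_add, Pi.add_apply]
    ring
  simp only [h8]
  rw [hdF, hdG]

end Pool.Agent.L0h68.CK
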