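import Pool.Agent.L0h21.CK.StmP
import Pool.Agent.L0h68.CK.LawB

/-!
# Module law of project CK
-/

set_option autoImplicit false

namespace Pool.Agent.L0h68.CK

open MvPolynomial MeasureTheory
open Pool.Agent.W427.SMC (msZ bsZ mu)
open Pool.Agent.L0h21.CK

attribute [local instance] msZ bsZ

/-- Module `law` -/
theorem t_law : S_law := by
  intro p _ V _ F G M k hF hR hk
  obtain ⟨c, k0, hc⟩ := hF
  exact ⟨k0 + (2 * c + 1), fun l hl H hH hB => law_main F G c k0 M k hc hR hk l hl H hH hB⟩

end Pool.Agent.L0h68.CK
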