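import Pool.Agent.L0h21.SN.Pad1

/-!
# Module law of project CK, part A

Two `p`-adic polynomials which are very close to each other near an isolated critical point have
the same distribution.
-/

set_option autoImplicit false
set_option linter.unusedSectionVars false

namespace Pool.Agent.L0h68.CK

open MvPolynomial MeasureTheory Filter Topology
open Pool.Agent.W427.SMC (msZ bsZ mu isom_surj)
open Pool.Agent.L0h21.SN (isom_mp)

attribute [local instance] msZ bsZ

theorem taylor {R V : Type} [CommRing R] [Fintype V] (F : MvPolynomial V R) (d : R) (a h : V → R)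
    (hd : ∀ i, d ∣ h i) :
    d ^ 2 ∣ eval (fun i => a i + h i) F - eval a F - ∑ i, h i * eval a (pderiv i F) := by
  classical
  induction F using MvPolynomial.induction_on with
  | C c => simp
  | add f g hf hg =>
    have h1 := dvd_add hf hg
    have h2 : eval (fun i => a i + h i) (f + g) - eval a (f + g) -
        ∑ i, h i * eval a (pderiv i (f + g)) =
        (eval (fun i => a i + h i) f - eval a f - ∑ i, h i * eval a (pderiv i f)) +
        (eval (fun i => a i + h i) g - eval a g - ∑ i, h i * eval a (pderiv i g)) := by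
      simp only [map_add, mul_add, Finset.sum_add_distrib]
      ring
    rw [h2]
    exact h1
  | mul_X f j hf =>
    have h3 : ∀ i, eval a (pderiv i (f * X j)) =
        (if i = j then eval a f else 0) + a j * eval a (pderiv i f) := by
      intro i
      rw [Derivation.leibniz, smul_eq_mul, smul_eq_mul, map_add, map_mul, map_mul, eval_X,
        pderiv_X]
      by_cases hij : i = j
      · subst hij
        simp
      · rw [if_neg hij, Pi.single_eq_of_ne (Ne.symm hij)]
        simp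
    have h4 : ∑ i, h i * eval a (pderiv i (f * X j)) =
        h j * eval a f + a j * ∑ i, h i * eval a (pderiv i f) := by
      simp only [h3, mul_add, Finset.sum_add_distrib, mul_ite, mul_zero, Finset.sum_ite_eq',
        Finset.mem_univ, if_true, Finset.mul_sum]
      congr 1
      refine Finset.sum_congr rfl fun i _ => ?_
      ring
    have h5 : d ∣ ∑ i, h i * eval a (pderiv i f) :=
      Finset.dvd_sum fun i _ => Dvd.dvd.mul_right (hd i) _
    rw [h4, map_mul, map_mul, eval_X, eval_X]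
    have h6 : eval (fun i => a i + h i) f * (a j + h j) - eval a f * a j -
        (h j * eval a f + a j * ∑ i, h i * eval a (pderiv i f)) =
        (eval (fun i => a i + h i) f - eval a f - ∑ i, h i * eval a (pderiv i f)) *
          (a j + h j) + (∑ i, h i * eval a (pderiv i f)) * h j := by ring
    rw [h6]
    refine dvd_add (Dvd.dvd.mul_right hf _) ?_
    rw [sq]
    exact mul_dvd_mul h5 (hd j)

variable {p : ℕ} [Fact p.Prime] {V : Type} [Fintype V]

theorem dvd_of_le {x y : ℤ_[p]} (h : ‖x‖ ≤ ‖y‖) : y ∣ x := by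
  rcases eq_or_ne y 0 with rfl | hy
  · rw [norm_zero] at h
    rw [norm_le_zero_iff.mp h]
  · have hy' : (y : ℚ_[p]) ≠ 0 := by
      intro h0
      exact hy (PadicInt.ext h0)
    have hy2 : 0 < ‖(y : ℚ_[p])‖ := norm_pos_iff.2 hy'
    refine ⟨⟨(x : ℚ_[p]) / y, ?_⟩, ?_⟩
    · rw [norm_div, div_le_one hy2]
      exact h
    · refine PadicInt.ext ?_
      show (x : ℚ_[p]) = (y : ℚ_[p]) * ((x : ℚ_[p]) / y)
      field_simp

theorem le_of_dvd {x y : ℤ_[p]} (h : y ∣ x) : ‖x‖ ≤ ‖y‖ := by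
  obtain ⟨z, rfl⟩ := h
  rw [norm_mul]
  exact mul_le_of_le_one_right (norm_nonneg _) (PadicInt.norm_le_one z)

theorem norm_pw (n : ℕ) : ‖(p : ℤ_[p]) ^ n‖ = ((p : ℝ)⁻¹) ^ n := by
  rw [norm_pow, PadicInt.norm_p]

theorem ipos : 0 < (p : ℝ)⁻¹ := inv_pos.2 (Nat.cast_pos.2 (Fact.out : p.Prime).pos)

theorem ilt : (p : ℝ)⁻¹ < 1 := inv_lt_one_of_one_lt₀ (Nat.one_lt_cast.2 (Fact.out : p.Prime).one_lt)

theorem norm_add_le' {x y : ℤ_[p]} {r : ℝ} (hx : ‖x‖ ≤ r) (hy : ‖y‖ ≤ r) : ‖x + y‖ ≤ r :=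
  (PadicInt.nonarchimedean x y).trans (max_le hx hy)

theorem norm_sum_le' {ι : Type} (s : Finset ι) (f : ι → ℤ_[p]) {r : ℝ} (hr : 0 ≤ r)
    (h : ∀ i ∈ s, ‖f i‖ ≤ r) : ‖∑ i ∈ s, f i‖ ≤ r := by
  classical
  induction s using Finset.induction_on with
  | empty => simpa using hr
  | insert i s hi ih =>
    rw [Finset.sum_insert hi]
    exact norm_add_le' (h i (Finset.mem_insert_self _ _))
      (ih fun j hj => h j (Finset.mem_insert_of_mem hj))

theorem norm_add_eq {x y : ℤ_[p]} (h : ‖y‖ < ‖x‖) : ‖x + y‖ = ‖x‖ := by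
  rw [PadicInt.norm_add_eq_max_of_ne h.ne', max_eq_left h.le]

/-- a map `θ` with these properties is the component `i0` of an isometry -/
theorem law_iso (i0 : V) (θ : (V → ℤ_[p]) → ℤ_[p]) (h1 : ∀ y y', ‖θ y - θ y'‖ ≤ ‖y - y'‖)
    (h2 : ∀ y y' : V → ℤ_[p], y ≠ y' → (∀ i, i ≠ i0 → ‖y i - y' i‖ < ‖y i0 - y' i0‖) →
      ‖θ y - θ y'‖ = ‖y i0 - y' i0‖) (H : ℤ_[p] → ℂ) (hH : Measurable H) :
    ∫ y, H (θ y) ∂(Measure.pi fun _ : V => mu p) = ∫ y, H (y i0) ∂(Measure.pi fun _ : V => mu p) := by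
  classical
  have hiso : Isometry fun y : V → ℤ_[p] => Function.update y i0 (θ y) := by
    refine Isometry.of_dist_eq fun y y' => ?_
    rcases eq_or_ne y y' with rfl | hne
    · rw [dist_self, dist_self]
    rw [dist_eq_norm, dist_eq_norm]
    refine le_antisymm ?_ ?_
    · rw [pi_norm_le_iff_of_nonneg (norm_nonneg _)]
      intro i
      rcases eq_or_ne i i0 with rfl | hi
      · rw [Pi.sub_apply, Function.update_self, Function.update_self]
        exact h1 y y'
      · rw [Pi.sub_apply, Function.update_of_ne hi, Function.update_of_ne hi]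
        exact norm_le_pi_norm (y - y') i
    · by_cases hc : ∀ i, i ≠ i0 → ‖y i - y' i‖ < ‖y i0 - y' i0‖
      · have h3 := h2 y y' hne hc
        rw [pi_norm_le_iff_of_nonneg (norm_nonneg _)]
        intro i
        have h4 : ‖y i0 - y' i0‖ ≤ ‖Function.update y i0 (θ y) - Function.update y' i0 (θ y')‖ := by
          rw [← h3]
          have := norm_le_pi_norm (Function.update y i0 (θ y) - Function.update y' i0 (θ y')) i0
          rwa [Pi.sub_apply, Function.update_self, Function.update_self] at this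
        refine le_trans ?_ h4
        rcases eq_or_ne i i0 with rfl | hi
        · exact le_rfl
        · exact (hc i hi).le
      · push Not at hc
        obtain ⟨i, hi, hle⟩ := hc
        have h4 : ∀ j, j ≠ i0 → ‖y j - y' j‖ ≤
            ‖Function.update y i0 (θ y) - Function.update y' i0 (θ y')‖ := by
          intro j hj
          have := norm_le_pi_norm (Function.update y i0 (θ y) - Function.update y' i0 (θ y')) j
          rwa [Pi.sub_apply, Function.update_of_ne hj, Function.update_of_ne hj] at this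
        rw [pi_norm_le_iff_of_nonneg (norm_nonneg _)]
        intro j
        rcases eq_or_ne j i0 with rfl | hj
        · exact hle.trans (h4 i hi)
        · exact h4 j hj
  have hmp := isom_mp p _ hiso
  have h3 := integral_map (μ := Measure.pi fun _ : V => mu p)
    (φ := fun y : V → ℤ_[p] => Function.update y i0 (θ y)) hmp.measurable.aemeasurable
    (f := fun y : V → ℤ_[p] => H (y i0)) (hH.comp (measurable_pi_apply i0)).aestronglyMeasurable
  rw [hmp.map_eq] at h3
  rw [h3]
  simp only [Function.update_self]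

/-- the distribution of a polynomial on a small polydisc -/
theorem law_disc (P : MvPolynomial V ℤ_[p]) (x : V → ℤ_[p]) (s g : ℕ) (hgs : g < s) (i0 : V)
    (b : ℤ_[p]) (hb : ‖eval x P - b‖ ≤ ((p : ℝ)⁻¹) ^ (s + g))
    (h1 : ∀ i, ‖eval x (pderiv i P)‖ ≤ ((p : ℝ)⁻¹) ^ g)
    (h2 : ‖eval x (pderiv i0 P)‖ = ((p : ℝ)⁻¹) ^ g) (H : ℤ_[p] → ℂ) (hH : Measurable H) :
    ∫ y, H (eval (fun i => x i + (p : ℤ_[p]) ^ s * y i) P) ∂(Measure.pi fun _ : V => mu p) =
      ∫ y, H (b + (p : ℤ_[p]) ^ (s + g) * y i0) ∂(Measure.pi fun _ : V => mu p) := by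
  have hp0 := ipos (p := p)
  have hp1 := ilt (p := p)
  have hps : (p : ℤ_[p]) ^ (s + g) ≠ 0 := pow_ne_zero _ (by
    exact_mod_cast (Fact.out : p.Prime).ne_zero)
  -- the derivatives on the disc
  have hder : ∀ (y : V → ℤ_[p]) (i : V), ‖eval (fun i => x i + (p : ℤ_[p]) ^ s * y i) (pderiv i P) -
      eval x (pderiv i P)‖ ≤ ((p : ℝ)⁻¹) ^ s := by
    intro y i
    have h3 := taylor (pderiv i P) ((p : ℤ_[p]) ^ s) x (fun i => (p : ℤ_[p]) ^ s * y i)
      fun i => Dvd.intro _ rfl
    have h4 : (p : ℤ_[p]) ^ s ∣ ∑ j, (p : ℤ_[p]) ^ s * y j * eval x (pderiv j (pderiv i P)) :=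
      Finset.dvd_sum fun j _ => Dvd.dvd.mul_right (Dvd.intro _ rfl) _
    have h5 := dvd_add ((dvd_pow_self _ two_ne_zero).trans h3) h4
    rw [sub_add_cancel] at h5
    have h6 := le_of_dvd h5
    rwa [norm_pw] at h6
  -- the increments on the disc
  have key : ∀ y y' : V → ℤ_[p], y ≠ y' → ∃ R : ℤ_[p],
      eval (fun i => x i + (p : ℤ_[p]) ^ s * y i) P -
        eval (fun i => x i + (p : ℤ_[p]) ^ s * y' i) P =
      ∑ i, (p : ℤ_[p]) ^ s * (y i - y' i) * eval x (pderiv i P) + R ∧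
      ‖R‖ < ((p : ℝ)⁻¹) ^ (s + g) * ‖y - y'‖ := by
    intro y y' hne
    obtain ⟨j, hj⟩ : ∃ j, ‖y j - y' j‖ = ‖y - y'‖ := by
      obtain ⟨i, hi⟩ := Function.ne_iff.1 hne
      obtain ⟨j, -, hj⟩ := Finset.exists_max_image Finset.univ (fun i => ‖y i - y' i‖)
        ⟨i, Finset.mem_univ i⟩
      refine ⟨j, le_antisymm (norm_le_pi_norm (y - y') j) ?_⟩
      rw [pi_norm_le_iff_of_nonneg (norm_nonneg _)]
      exact fun i => hj i (Finset.mem_univ i)
    have hn : 0 < ‖y - y'‖ := norm_pos_iff.2 (sub_ne_zero.2 hne)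
    have hd : ∀ i, (p : ℤ_[p]) ^ s * (y j - y' j) ∣ (p : ℤ_[p]) ^ s * (y i - y' i) := by
      intro i
      refine mul_dvd_mul_left _ (dvd_of_le ?_)
      rw [hj]
      exact norm_le_pi_norm (y - y') i
    have h3 := taylor P ((p : ℤ_[p]) ^ s * (y j - y' j)) (fun i => x i + (p : ℤ_[p]) ^ s * y' i)
      (fun i => (p : ℤ_[p]) ^ s * (y i - y' i)) hd
    have h4 : (fun i => x i + (p : ℤ_[p]) ^ s * y' i + (p : ℤ_[p]) ^ s * (y i - y' i)) =
        fun i => x i + (p : ℤ_[p]) ^ s * y i := by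
      funext i
      ring
    rw [h4] at h3
    have h5 := le_of_dvd h3
    rw [norm_pow, norm_mul, norm_pw, hj] at h5
    set R1 := eval (fun i => x i + (p : ℤ_[p]) ^ s * y i) P -
        eval (fun i => x i + (p : ℤ_[p]) ^ s * y' i) P -
        ∑ i, (p : ℤ_[p]) ^ s * (y i - y' i) *
          eval (fun i => x i + (p : ℤ_[p]) ^ s * y' i) (pderiv i P) with hR1
    set R2 := ∑ i, (p : ℤ_[p]) ^ s * (y i - y' i) *
      (eval (fun i => x i + (p : ℤ_[p]) ^ s * y' i) (pderiv i P) - eval x (pderiv i P)) with hR2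
    have hsmall : ((p : ℝ)⁻¹) ^ s * ‖y - y'‖ * ((p : ℝ)⁻¹) ^ s <
        ((p : ℝ)⁻¹) ^ (s + g) * ‖y - y'‖ := by
      have h6 : ((p : ℝ)⁻¹) ^ (s + s) < ((p : ℝ)⁻¹) ^ (s + g) :=
        pow_lt_pow_right_of_lt_one₀ hp0 hp1 (by omega)
      calc ((p : ℝ)⁻¹) ^ s * ‖y - y'‖ * ((p : ℝ)⁻¹) ^ s = ((p : ℝ)⁻¹) ^ (s + s) * ‖y - y'‖ := by
            ring
        _ < _ := mul_lt_mul_of_pos_right h6 hn
    refine ⟨R1 + R2, ?_, ?_⟩
    · rw [hR1, hR2]
      simp only [mul_sub, Finset.sum_sub_distrib]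
      ring
    · have hR2' : ‖R2‖ ≤ ((p : ℝ)⁻¹) ^ s * ‖y - y'‖ * ((p : ℝ)⁻¹) ^ s := by
        refine norm_sum_le' _ _ (by positivity) fun i _ => ?_
        rw [norm_mul, norm_mul, norm_pw]
        exact mul_le_mul (mul_le_mul_of_nonneg_left (norm_le_pi_norm (y - y') i) (by positivity))
          (hder y' i) (norm_nonneg _) (by positivity)
      have hR1' : ‖R1‖ ≤ ((p : ℝ)⁻¹) ^ s * ‖y - y'‖ * ((p : ℝ)⁻¹) ^ s := by
        refine h5.trans ?_
        have h6 : ‖y - y'‖ ≤ 1 := by
          rw [← hj]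
          exact PadicInt.norm_le_one _
        calc (((p : ℝ)⁻¹) ^ s * ‖y - y'‖) ^ 2 =
              ((p : ℝ)⁻¹) ^ s * ‖y - y'‖ * ((p : ℝ)⁻¹) ^ s * ‖y - y'‖ := by ring
          _ ≤ _ := mul_le_of_le_one_right (by positivity) h6
      exact (norm_add_le' hR1' hR2').trans_lt hsmall
  -- the increments from the centre
  have hcen : ∀ y : V → ℤ_[p], (p : ℤ_[p]) ^ (s + g) ∣
      eval (fun i => x i + (p : ℤ_[p]) ^ s * y i) P - b := by
    intro y
    refine dvd_of_le ?_
    rw [norm_pw]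
    have h3 : eval (fun i => x i + (p : ℤ_[p]) ^ s * y i) P - b =
        (eval (fun i => x i + (p : ℤ_[p]) ^ s * y i) P - eval x P) + (eval x P - b) := by ring
    rw [h3]
    refine norm_add_le' ?_ hb
    rcases eq_or_ne y 0 with rfl | hy
    · simp only [Pi.zero_apply, mul_zero, add_zero, sub_self, norm_zero]
      positivity
    · obtain ⟨R, hR, hR'⟩ := key y 0 hy
      simp only [Pi.zero_apply, mul_zero, add_zero, sub_zero] at hR hR'
      rw [hR]
      have hy1 : ‖y‖ ≤ 1 := by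
        rw [pi_norm_le_iff_of_nonneg zero_le_one]
        exact fun i => PadicInt.norm_le_one _
      refine norm_add_le' (norm_sum_le' _ _ (by positivity) fun i _ => ?_) (hR'.le.trans
        (mul_le_of_le_one_right (by positivity) hy1))
      rw [norm_mul, norm_mul, norm_pw, pow_add]
      exact mul_le_mul (mul_le_of_le_one_right (by positivity) (PadicInt.norm_le_one _)) (h1 i)
        (norm_nonneg _) (by positivity)
  choose θ hθ using hcen
  have hθ' : ∀ y y' : V → ℤ_[p], ((p : ℝ)⁻¹) ^ (s + g) * ‖θ y - θ y'‖ =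
      ‖eval (fun i => x i + (p : ℤ_[p]) ^ s * y i) P -
        eval (fun i => x i + (p : ℤ_[p]) ^ s * y' i) P‖ := by
    intro y y'
    rw [← norm_pw, ← norm_mul, mul_sub, ← hθ y, ← hθ y']
    congr 1
    ring
  have hpos : 0 < ((p : ℝ)⁻¹) ^ (s + g) := by positivity
  have h3 := law_iso i0 θ (fun y y' => ?_) (fun y y' hne hc => ?_)
    (fun z => H (b + (p : ℤ_[p]) ^ (s + g) * z)) ?_
  · rw [← h3]
    refine integral_congr_ae (Eventually.of_forall fun y => ?_)
    show H _ = H _
    rw [← hθ y]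
    congr 1
    ring
  · rcases eq_or_ne y y' with rfl | hne
    · simp
    obtain ⟨R, hR, hR'⟩ := key y y' hne
    have h4 := hθ' y y'
    rw [hR] at h4
    refine le_of_mul_le_mul_left ?_ hpos
    rw [h4]
    refine norm_add_le' (norm_sum_le' _ _ (by positivity) fun i _ => ?_) hR'.le
    rw [norm_mul, norm_mul, norm_pw, pow_add]
    calc ((p : ℝ)⁻¹) ^ s * ‖y i - y' i‖ * ‖eval x (pderiv i P)‖ ≤
        ((p : ℝ)⁻¹) ^ s * ‖y - y'‖ * ((p : ℝ)⁻¹) ^ g :=
          mul_le_mul (mul_le_mul_of_nonneg_left (norm_le_pi_norm (y - y') i) (by positivity))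
            (h1 i) (norm_nonneg _) (by positivity)
      _ = _ := by ring
  · classical
    obtain ⟨R, hR, hR'⟩ := key y y' hne
    have h4 := hθ' y y'
    have hn : ‖y - y'‖ = ‖y i0 - y' i0‖ := by
      refine le_antisymm ?_ (norm_le_pi_norm (y - y') i0)
      rw [pi_norm_le_iff_of_nonneg (norm_nonneg _)]
      intro i
      rcases eq_or_ne i i0 with rfl | hi
      · exact le_rfl
      · exact (hc i hi).le
    have hn0 : 0 < ‖y i0 - y' i0‖ := by
      rw [← hn]
      exact norm_pos_iff.2 (sub_ne_zero.2 hne)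
    rw [hn] at hR'
    rw [hR, ← Finset.add_sum_erase _ _ (Finset.mem_univ i0), add_assoc] at h4
    have h5 : ‖(p : ℤ_[p]) ^ s * (y i0 - y' i0) * eval x (pderiv i0 P)‖ =
        ((p : ℝ)⁻¹) ^ (s + g) * ‖y i0 - y' i0‖ := by
      rw [norm_mul, norm_mul, norm_pw, h2]
      ring
    have h6 : ‖∑ i ∈ Finset.univ.erase i0, (p : ℤ_[p]) ^ s * (y i - y' i) *
        eval x (pderiv i P) + R‖ < ((p : ℝ)⁻¹) ^ (s + g) * ‖y i0 - y' i0‖ := by
      refine (PadicInt.nonarchimedean _ _).trans_lt (max_lt ?_ hR')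
      rcases (Finset.univ.erase i0).eq_empty_or_nonempty with he | he
      · rw [he, Finset.sum_empty, norm_zero]
        positivity
      · obtain ⟨i1, hi1, hle⟩ := Finset.exists_max_image (Finset.univ.erase i0)
          (fun i => ‖y i - y' i‖) he
        have h7 : ‖∑ i ∈ Finset.univ.erase i0, (p : ℤ_[p]) ^ s * (y i - y' i) *
            eval x (pderiv i P)‖ ≤ ((p : ℝ)⁻¹) ^ (s + g) * ‖y i1 - y' i1‖ := by
          refine norm_sum_le' _ _ (by positivity) fun i hi => ?_
          rw [norm_mul, norm_mul, norm_pw]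
          calc ((p : ℝ)⁻¹) ^ s * ‖y i - y' i‖ * ‖eval x (pderiv i P)‖ ≤
              ((p : ℝ)⁻¹) ^ s * ‖y i1 - y' i1‖ * ((p : ℝ)⁻¹) ^ g :=
                mul_le_mul (mul_le_mul_of_nonneg_left (hle i hi) (by positivity))
                  (h1 i) (norm_nonneg _) (by positivity)
            _ = _ := by ring
        exact h7.trans_lt (mul_lt_mul_of_pos_left (hc i1 (Finset.ne_of_mem_erase hi1)) hpos)
    rw [← h5] at h6
    rw [norm_add_eq h6, h5] at h4
    exact mul_left_cancel₀ hpos.ne' h4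
  · exact hH.comp (measurable_const.add (measurable_const.mul measurable_id))

end Pool.Agent.L0h68.CK
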